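import Pool.Agent.Helper55.PC.Events

/-!
# MP_cf7fa9_pr, block C2

An occurrence of the universal pattern at a test point of a bad lamp kills every character which
sees that lamp.
-/

namespace Pool.Agent.Helper55.PC

open Finset Filter
open scoped Topology ENNReal Classical

section
variable {k r L : ℕ} [NeZero k] [NeZero L] {R U : Type} [Group R] [Fintype R]
    [AddCommGroup U] [Fintype U] [DistribMulAction R U] {s q : R} {u : Idx k r → U} {W : Pat}

/-- lamps and cursor are constant during an occurrence of `W` -/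
lemma frozen_of_occ (hG : GW s q u W) (p0 : Site k L → ZMod 2) (c0 : Site k L)
    (w : ℕ → Slot) (σ : ℕ) (hocc : W.occ w σ) :
    ∀ m ≤ W.n, lamp p0 c0 w (σ + m) = lamp p0 c0 w σ ∧ cur w (σ + m) = cur w σ := by
  intro m
  induction m with
  | zero => intro _; exact ⟨rfl, rfl⟩
  | succ m ih =>
    intro hm
    obtain ⟨h1, h2⟩ := ih (by omega)
    have hP := hocc m (by omega)
    have hE : (w (σ + m)).1 ≠ 2 := hG.noE m (by omega) _ hP
    have hmv : mv (w (σ + m)) = 0 := W.still m (by omega) _ hP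
    constructor
    · rw [← add_assoc]
      have : lamp p0 c0 w (σ + m + 1) = fun y => lamp p0 c0 w (σ + m) y +
        if w (σ + m) = (2, true) ∧ c0 + (cur w (σ + m) : Site k L) = y then 1 else 0 := rfl
      rw [this, ← h1]
      funext y
      rw [if_neg, add_zero]
      rintro ⟨h, -⟩
      exact hE (by rw [h])
    · rw [← add_assoc, cur_succ, hmv, add_zero, h2]

lemma zmod2_add_self (a : ZMod 2) : a + a = 0 := by
  revert a; decide

/-- `f ↦ labs x f p` is a bijection -/
def labsEquiv (x : Site k L) (p : Site k L → ZMod 2) : Lbl k r ≃ Lbl k r where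
  toFun f := labs x f p
  invFun f := labs x f p
  left_inv f := by
    funext j v
    simp [labs, add_assoc, zmod2_add_self]
  right_inv f := by
    funext j v
    simp [labs, add_assoc, zmod2_add_self]

/-- the character of `U` attached to an index, for fixed lamps and cursor -/
noncomputable def chiOf (p : Site k L → ZMod 2) (c : Site k L)
    (ψ : (Site k L × Lbl k r → U) →+ ZMod 2) (τ : Idx k r) : U →+ ZMod 2 :=
  if badLbl τ.2.2 τ.1 then
    ψ.comp (AddMonoidHom.single (fun _ => U)
      (c - tpt k L τ.1 τ.2.1, labs (c - tpt k L τ.1 τ.2.1) τ.2.2 p))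
  else 0

lemma psi_kb (p : Site k L → ZMod 2) (c : Site k L) (ρ : R)
    (ψ : (Site k L × Lbl k r → U) →+ ZMod 2) :
    ψ (kb u p c ρ) = ∑ τ : Idx k r, chiOf p c ψ τ (ρ • u τ) := by
  have h1 : ψ (kb u p c ρ) = ∑ ω : Site k L × Lbl k r, ψ (Pi.single ω (kb u p c ρ ω)) := by
    rw [← map_sum, Finset.univ_sum_single]
  rw [h1]
  have h2 : ∀ ω : Site k L × Lbl k r, ψ (Pi.single ω (kb u p c ρ ω)) =
      ∑ j : ZMod k, ∑ i : Bool, if ω.1 = c - tpt k L j i then
        (if badLbl (labs ω.1 ω.2 p) j then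
          ψ (Pi.single ω (ρ • u (j, i, labs ω.1 ω.2 p))) else 0) else 0 := by
    intro ω
    have h3 : kb u p c ρ ω = ∑ j : ZMod k, ∑ i : Bool,
        if ω.1 - c = - tpt k L j i ∧ badLbl (labs ω.1 ω.2 p) j then
          ρ • u (j, i, labs ω.1 ω.2 p) else 0 := by
      simp only [kb, bfun, Finset.smul_sum, smul_ite, smul_zero]
    rw [h3]
    have h4 : ∀ v : U, ψ (Pi.single ω v) = ψ.comp (AddMonoidHom.single (fun _ => U) ω) v :=
      fun v => rfl
    rw [h4, map_sum]
    refine sum_congr rfl fun j _ => ?_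
    rw [map_sum]
    refine sum_congr rfl fun i _ => ?_
    have h5 : (ω.1 - c = - tpt k L j i) ↔ ω.1 = c - tpt k L j i := by
      constructor
      · intro h
        rw [sub_eq_iff_eq_add] at h
        rw [h]; ring
      · intro h
        rw [h]; ring
    by_cases h6 : ω.1 = c - tpt k L j i
    · by_cases h7 : badLbl (labs ω.1 ω.2 p) j
      · rw [if_pos ⟨h5.2 h6, h7⟩, if_pos h6, if_pos h7, ← h4]
      · rw [if_neg (fun h => h7 h.2), if_pos h6, if_neg h7, map_zero]
    · rw [if_neg (fun h => h6 (h5.1 h.1)), if_neg h6, map_zero]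
  rw [sum_congr rfl fun ω _ => h2 ω, sum_comm, Fintype.sum_prod_type]
  refine sum_congr rfl fun j _ => ?_
  rw [sum_comm, Fintype.sum_prod_type]
  refine sum_congr rfl fun i _ => ?_
  rw [Fintype.sum_prod_type, sum_eq_single (c - tpt k L j i)]
  · simp only [if_true]
    refine Fintype.sum_equiv (labsEquiv (r := r) (c - tpt k L j i) p) _ _ fun z => ?_
    have h8 : labs (c - tpt k L j i) (labs (c - tpt k L j i) z p) p = z :=
      (labsEquiv (r := r) (c - tpt k L j i) p).left_inv z
    have h9 : (labsEquiv (r := r) (c - tpt k L j i) p) z = labs (c - tpt k L j i) z p := rfl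
    rw [h9]
    simp only [chiOf]
    split_ifs with h10
    · rw [h8]; rfl
    · simp
  · intro x _ hx
    simp [hx]
  · intro h; exact absurd (mem_univ _) h

theorem kill_of_occ (hG : GW s q u W) (p0 : Site k L → ZMod 2) (c0 : Site k L) (ρ0 : R)
    (w : ℕ → Slot) (σ : ℕ) (hocc : W.occ w σ) (x : Site k L) (f : Lbl k r) (j : ZMod k) (i : Bool)
    (hc : c0 + (cur w σ : Site k L) = x + tpt k L j i)
    (hbad : badLbl (labs x f (lamp p0 c0 w σ)) j)
    (ψ : (Site k L × Lbl k r → U) →+ ZMod 2) (v : U) (hψ : ψ (Pi.single (x, f) v) ≠ 0)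
    (t : ℕ) (ht : σ + W.n ≤ t) : Killed s q u p0 c0 ρ0 ψ t w := by
  set p := lamp p0 c0 w σ with hp
  set c := c0 + (cur w σ : Site k L) with hcdef
  have hx : c - tpt k L j i = x := by rw [hc]; ring
  have hlab : labs x (labs x f p) p = f := (labsEquiv (r := r) x p).left_inv f
  have hne : chiOf p c ψ (j, i, labs x f p) ≠ 0 := by
    intro h
    have h1 : chiOf p c ψ (j, i, labs x f p) v = ψ (Pi.single (x, f) v) := by
      simp only [chiOf]
      rw [if_pos hbad]
      simp only [hx, hlab]
      rfl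
    rw [h] at h1
    exact hψ h1.symm
  obtain ⟨a, ha⟩ := hG.star (chiOf p c ψ) ⟨_, hne⟩
  obtain ⟨s', h1, h2, h3, h4⟩ := hG.univ w σ ρ0 hocc a
  refine ⟨s', by omega, h3, ?_⟩
  obtain ⟨h5, h6⟩ := frozen_of_occ hG p0 c0 w σ hocc (s' - σ) (by omega)
  rw [show σ + (s' - σ) = s' by omega] at h5 h6
  rw [inc, h5, h6, h4, psi_kb]
  exact ha

end

end Pool.Agent.Helper55.PC
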